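import Pool.Agent.Y688.LC.Quant

/-!
# Isodiametric logarithmic capacity in dimensions three and four, quantitatively

The logarithmic capacity of the closed unit ball is `2 e^(-1/2)` in dimension three and `e^(1/4)` in
dimension four, and there are convex bodies of diameter `2` whose logarithmic capacity is larger by
more than `0.085` per cent in dimension three and by more than `3.25` per cent in dimension four.

Proof.  The uniform measure `σ` of the unit sphere has constant potential on the sphere, computed by
helper68 together with the positive definiteness of the kernel; we show that `σ` is an equilibrium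
measure of the ball (its energy is finite and equal to the lower bound for all measures on the ball).
The convex bodies are the closed convex hulls of the polytopes of helper68 (144 segments in dimension
three, 24 segments in dimension four), whose energies are now bounded by explicit rational numbers.
-/

set_option autoImplicit false

open Pool.Agent.Helper68.LC

namespace Pool.Agent.Results.MP_42a974_an.QuantitativeBreaking

theorem logCap_mono {n : ℕ} {K K' : Set (EuclideanSpace ℝ (Fin n))} (h : K ⊆ K') :
    logCap K ≤ logCap K' := by
  unfold logCap
  rw [EReal.exp_le_exp_iff, EReal.neg_le_neg_iff]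
  apply le_iInf₂
  intro μ hμ
  exact iInf₂_le μ (MeasureTheory.measure_mono_null (Set.compl_subset_compl.2 h) hμ)

theorem convexify {n : ℕ} {K : Set (EuclideanSpace ℝ (Fin n))} (hK : IsCompact K)
    (hd : Metric.diam K = 2) {c : ENNReal} (hc : c < logCap K) :
    ∃ K' : Set (EuclideanSpace ℝ (Fin n)), Convex ℝ K' ∧ IsCompact K' ∧ Metric.diam K' = 2 ∧
      c < logCap K' := by
  refine ⟨closure (convexHull ℝ K), (convex_convexHull ℝ K).closure, ?_, ?_, ?_⟩
  · exact Metric.isCompact_of_isClosed_isBounded isClosed_closure
      (isBounded_convexHull.2 hK.isBounded).closure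
  · rw [Metric.diam_closure, convexHull_diam, hd]
  · exact hc.trans_le (logCap_mono ((subset_convexHull ℝ K).trans subset_closure))

/-- (1), (2): the logarithmic capacity of the closed unit ball of dimension three is `2 e^(-1/2)`, that
of the closed unit ball of dimension four is `e^(1/4)`.
(3), (4): in dimension three (four) there is a convex compact set of diameter `2` whose logarithmic
capacity is larger than `1.00085` (`1.0325`) times that of the closed unit ball. -/
theorem result :
    logCap (Metric.closedBall (0 : EuclideanSpace ℝ (Fin 3)) 1)
      = ENNReal.ofReal (2 * Real.exp (-(1 / 2))) ∧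
    logCap (Metric.closedBall (0 : EuclideanSpace ℝ (Fin 4)) 1)
      = ENNReal.ofReal (Real.exp (1 / 4)) ∧
    (∃ K : Set (EuclideanSpace ℝ (Fin 3)), Convex ℝ K ∧ IsCompact K ∧ Metric.diam K = 2 ∧
      ENNReal.ofReal 1.00085 * logCap (Metric.closedBall (0 : EuclideanSpace ℝ (Fin 3)) 1)
        < logCap K) ∧
    (∃ K : Set (EuclideanSpace ℝ (Fin 4)), Convex ℝ K ∧ IsCompact K ∧ Metric.diam K = 2 ∧
      ENNReal.ofReal 1.0325 * logCap (Metric.closedBall (0 : EuclideanSpace ℝ (Fin 4)) 1)
        < logCap K) := by
  refine ⟨Y688.LC.ball_three, Y688.LC.ball_four, ?_, ?_⟩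
  · obtain ⟨K, hK, hd, h⟩ := Y688.LC.exists_three'
    rw [Y688.LC.ball_three, ← ENNReal.ofReal_mul (by norm_num)]
    exact convexify hK hd h
  · obtain ⟨K, hK, hd, h⟩ := Y688.LC.exists_four'
    rw [Y688.LC.ball_four, ← ENNReal.ofReal_mul (by norm_num)]
    exact convexify hK hd h

end Pool.Agent.Results.MP_42a974_an.QuantitativeBreaking
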